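import Mathlib

/-!
# A projection without free extreme points

Counterexample to Q2: the matrix convex set `K` of all `9`-tuples `X` of self-adjoint matrices for
which the self-adjoint `3 × 3` block matrix `B X` with blocks
`X₀₀, X₀₁ + i X₁₀, …` is a contraction is closed, bounded and the matrix convex hull of its free
extreme points, but its projection onto the four coordinates `(0,1), (1,0), (0,2), (2,0)` (the row
contractions of length two) has no free extreme points at all.
-/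

namespace Pool.Agent.Results.MP_c7d282_an.ProjectionNoFreeExtreme

open Matrix
open scoped ComplexOrder

/-- Tuples of complex `n × n` matrices indexed by the finite set `J` of coordinates. -/
abbrev Tup (J : Type) (n : ℕ) := J → Matrix (Fin n) (Fin n) ℂ

/-- A graded family of sets of tuples. -/
abbrev MSet (J : Type) := ∀ n : ℕ, Set (Tup J n)

/-- `X` is a matrix convex combination of elements of `S`. -/
def IsMCC {J : Type} (S : MSet J) (n : ℕ) (X : Tup J n) : Prop :=
  ∃ (ι : Type) (_ : Fintype ι) (m : ι → ℕ) (Y : ∀ i, Tup J (m i))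
    (V : ∀ i, Matrix (Fin (m i)) (Fin n) ℂ),
    (∀ i, 0 < m i ∧ Y i ∈ S (m i)) ∧ ∑ i, (V i)ᴴ * V i = 1 ∧
      ∀ j, X j = ∑ i, (V i)ᴴ * Y i j * V i

/-- `K` consists of tuples of self-adjoint matrices and is closed under matrix convex
combinations. -/
def MatrixConvex {J : Type} (K : MSet J) : Prop :=
  (∀ n, ∀ X ∈ K n, ∀ j, (X j).IsHermitian) ∧ ∀ n, 0 < n → ∀ X, IsMCC K n X → X ∈ K n

/-- Unitary equivalence of `Y` and `X`. -/
def UEq {J : Type} {m n : ℕ} (Y : Tup J m) (X : Tup J n) : Prop :=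
  ∃ U : Matrix (Fin m) (Fin n) ℂ, Uᴴ * U = 1 ∧ U * Uᴴ = 1 ∧ ∀ j, Y j = U * X j * Uᴴ

/-- Unitary equivalence of `Y` and `X ⊕ Z`. -/
def UEqSum {J : Type} {m n r : ℕ} (Y : Tup J m) (X : Tup J n) (Z : Tup J r) : Prop :=
  ∃ U : Matrix (Fin m) (Fin n ⊕ Fin r) ℂ, Uᴴ * U = 1 ∧ U * Uᴴ = 1 ∧
    ∀ j, Y j = U * fromBlocks (X j) 0 0 (Z j) * Uᴴ

/-- `X` is a free extreme point of `K` at level `n`. -/
def FreeExt {J : Type} (K : MSet J) : MSet J := fun n =>
  {X | X ∈ K n ∧ ∀ (ι : Type) (_ : Fintype ι) (m : ι → ℕ) (Y : ∀ i, Tup J (m i))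
    (V : ∀ i, Matrix (Fin (m i)) (Fin n) ℂ),
    (∀ i, 0 < m i ∧ Y i ∈ K (m i)) → (∀ i, V i ≠ 0) → ∑ i, (V i)ᴴ * V i = 1 →
      (∀ j, X j = ∑ i, (V i)ᴴ * Y i j * V i) →
      ∀ i, (m i = n ∧ UEq (Y i) X) ∨
        (n < m i ∧ ∃ r, 0 < r ∧ m i = n + r ∧ ∃ Z ∈ K r, UEqSum (Y i) X Z)}

/-- The projection of `K` onto the coordinates `e 0, e 1, …`. -/
def proj {J J' : Type} (e : J' → J) (K : MSet J) : MSet J' := fun n =>
  {X' | ∃ X : Tup J n, X ∈ K n ∧ ∀ j, X' j = X (e j)}

/-! ### The pencil -/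

/-- The `(a,b)` block attached to a nine-tuple with values in a complex vector space. -/
def ent {A : Type*} [AddCommGroup A] [Module ℂ A] (X : Fin 3 × Fin 3 → A) (a b : Fin 3) : A :=
  if a = b then X (a, b)
  else if a < b then X (a, b) + Complex.I • X (b, a) else X (b, a) - Complex.I • X (a, b)

/-- The `3 × 3` block matrix of a nine-tuple. -/
def B {N : Type} (X : Fin 3 × Fin 3 → Matrix N N ℂ) : Matrix (Fin 3 × N) (Fin 3 × N) ℂ :=
  Matrix.of fun p q => ent X p.1 q.1 p.2 q.2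

/-- The matrix convex set `K`: self-adjoint nine-tuples with `-1 ≤ B X ≤ 1`. -/
def K : MSet (Fin 3 × Fin 3) := fun n =>
  {X | (∀ j, (X j).IsHermitian) ∧ (1 - B X).PosSemidef ∧ (1 + B X).PosSemidef}

section general

variable {A A' : Type*} [AddCommGroup A] [Module ℂ A] [AddCommGroup A'] [Module ℂ A']

lemma ent_map (f : A →ₗ[ℂ] A') (X : Fin 3 × Fin 3 → A) (a b : Fin 3) :
    ent (fun j => f (X j)) a b = f (ent X a b) := by
  unfold ent
  split_ifs <;> simp

lemma ent_add (X Y : Fin 3 × Fin 3 → A) (a b : Fin 3) :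
    ent (fun j => X j + Y j) a b = ent X a b + ent Y a b := by
  unfold ent
  split_ifs
  · rfl
  · simp only [smul_add]; abel
  · simp only [smul_add]; abel

lemma ent_sum {ι : Type*} (s : Finset ι) (X : ι → Fin 3 × Fin 3 → A) (a b : Fin 3) :
    ent (fun j => ∑ i ∈ s, X i j) a b = ∑ i ∈ s, ent (X i) a b := by
  classical
  induction s using Finset.induction_on with
  | empty => simp [ent]
  | insert i s hi ih =>
    simp only [Finset.sum_insert hi]
    rw [ent_add, ih]

lemma ent_zero {X : Fin 3 × Fin 3 → A} (h : ∀ a b, ent X a b = 0) (j : Fin 3 × Fin 3) :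
    X j = 0 := by
  have key : ∀ a b : Fin 3, a < b → X (a, b) = 0 ∧ X (b, a) = 0 := by
    intro a b hab
    have h1 := h a b
    have h2 := h b a
    unfold ent at h1 h2
    rw [if_neg hab.ne, if_pos hab] at h1
    rw [if_neg hab.ne', if_neg hab.asymm] at h2
    have h3 : (2 : ℂ) • X (a, b) = 0 := by
      have : (2 : ℂ) • X (a, b) = (X (a, b) + Complex.I • X (b, a)) +
        (X (a, b) - Complex.I • X (b, a)) := by rw [two_smul]; abel
      rw [this, h1, h2, add_zero]
    have h4 : X (a, b) = 0 := (smul_eq_zero.1 h3).resolve_left two_ne_zero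
    rw [h4, zero_add] at h1
    exact ⟨h4, (smul_eq_zero.1 h1).resolve_left Complex.I_ne_zero⟩
  obtain ⟨a, b⟩ := j
  rcases lt_trichotomy a b with hab | hab | hab
  · exact (key a b hab).1
  · subst hab
    have := h a a
    unfold ent at this
    rwa [if_pos rfl] at this
  · exact (key b a hab).2

end general

/-- The nine coordinates of a block matrix. -/
noncomputable def coef {N : Type} (S : Matrix (Fin 3 × N) (Fin 3 × N) ℂ) (j : Fin 3 × Fin 3) :
    Matrix N N ℂ :=
  Matrix.of fun s t =>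
    if j.1 = j.2 then S (j.1, s) (j.2, t)
    else if j.1 < j.2 then (1 / 2 : ℂ) * (S (j.1, s) (j.2, t) + S (j.2, s) (j.1, t))
    else (1 / (2 * Complex.I)) * (S (j.2, s) (j.1, t) - S (j.1, s) (j.2, t))

lemma B_coef {N : Type} (S : Matrix (Fin 3 × N) (Fin 3 × N) ℂ) : B (coef S) = S := by
  ext ⟨a, s⟩ ⟨b, t⟩
  have hI : Complex.I * (1 / (2 * Complex.I)) = 1 / 2 := by
    field_simp
  simp only [B, ent, coef, Matrix.of_apply]
  rcases lt_trichotomy a b with hab | hab | hab
  · rw [if_neg hab.ne, if_pos hab]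
    simp only [Matrix.add_apply, Matrix.smul_apply, Matrix.of_apply, smul_eq_mul]
    rw [if_neg hab.ne, if_pos hab, if_neg hab.ne', if_neg hab.asymm, ← mul_assoc, hI]
    ring
  · subst hab
    simp
  · rw [if_neg hab.ne', if_neg hab.asymm]
    simp only [Matrix.sub_apply, Matrix.smul_apply, Matrix.of_apply, smul_eq_mul]
    rw [if_neg hab.ne, if_pos hab, if_neg hab.ne', if_neg hab.asymm, ← mul_assoc, hI]
    ring

lemma coef_herm {N : Type} {S : Matrix (Fin 3 × N) (Fin 3 × N) ℂ} (hS : S.IsHermitian)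
    (j : Fin 3 × Fin 3) : (coef S j).IsHermitian := by
  have h : ∀ p q, (starRingEnd ℂ) (S p q) = S q p := fun p q => by
    have := congrFun (congrFun hS q) p
    simpa [Matrix.conjTranspose_apply] using this
  have e2 : (starRingEnd ℂ) 2 = 2 := map_ofNat (starRingEnd ℂ) 2
  ext s t
  simp only [Matrix.conjTranspose_apply, coef, Matrix.of_apply]
  obtain ⟨a, b⟩ := j
  rcases lt_trichotomy a b with hab | hab | hab
  · simp only [hab.ne, hab, if_false, if_true, star_mul', RCLike.star_def, map_add, h, map_div₀,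
      map_one, e2]
    ring
  · subst hab
    simp [h]
  · simp only [hab.ne', hab.asymm, if_false, star_mul', RCLike.star_def, map_sub, h, map_div₀,
      map_one, map_mul, e2, Complex.conj_I]
    ring

/-! ### Compressions -/

/-- `1 ⊗ V`. -/
def big {M N : Type} (V : Matrix M N ℂ) : Matrix (Fin 3 × M) (Fin 3 × N) ℂ :=
  Matrix.of fun p q => if p.1 = q.1 then V p.2 q.2 else 0

section big

set_option linter.unusedSectionVars false

variable {M N L : Type} [Fintype M] [Fintype N] [Fintype L]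

/-- Right multiplication. -/
def mulR (V : Matrix M N ℂ) : Matrix L M ℂ →ₗ[ℂ] Matrix L N ℂ where
  toFun Z := Z * V
  map_add' Z W := Matrix.add_mul Z W V
  map_smul' c Z := by simp

/-- Left multiplication. -/
def mulL (V : Matrix N M ℂ) : Matrix M L ℂ →ₗ[ℂ] Matrix N L ℂ where
  toFun Z := V * Z
  map_add' Z W := Matrix.mul_add V Z W
  map_smul' c Z := by simp

lemma big_conjTranspose (V : Matrix M N ℂ) : (big V)ᴴ = big Vᴴ := by
  ext ⟨a, s⟩ ⟨b, t⟩
  simp only [big, Matrix.conjTranspose_apply, Matrix.of_apply]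
  by_cases h : a = b
  · simp [h]
  · rw [if_neg h, if_neg (Ne.symm h), star_zero]

lemma mul_big (S : Matrix (Fin 3 × L) (Fin 3 × M) ℂ) (V : Matrix M N ℂ) (p : Fin 3 × L)
    (q : Fin 3 × N) : (S * big V) p q = ∑ k, S p (q.1, k) * V k q.2 := by
  simp only [Matrix.mul_apply, big, Matrix.of_apply, Fintype.sum_prod_type, mul_ite, mul_zero]
  rw [Finset.sum_comm]
  simp

lemma big_mul (S : Matrix (Fin 3 × M) (Fin 3 × L) ℂ) (V : Matrix N M ℂ) (p : Fin 3 × N)
    (q : Fin 3 × L) : (big V * S) p q = ∑ k, V p.2 k * S (p.1, k) q := by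
  simp only [Matrix.mul_apply, big, Matrix.of_apply, Fintype.sum_prod_type, ite_mul, zero_mul]
  rw [Finset.sum_comm]
  simp

lemma big_mul_big (V : Matrix L M ℂ) (W : Matrix M N ℂ) : big V * big W = big (V * W) := by
  ext ⟨a, s⟩ ⟨b, t⟩
  rw [mul_big]
  simp only [big, Matrix.of_apply, Matrix.mul_apply]
  by_cases h : a = b <;> simp [h]

lemma big_one [DecidableEq N] : big (1 : Matrix N N ℂ) = 1 := by
  ext ⟨a, s⟩ ⟨b, t⟩
  simp only [big, Matrix.of_apply, Matrix.one_apply, Prod.mk.injEq]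
  by_cases h : a = b <;> simp [h]

lemma big_sum {ι : Type*} (s : Finset ι) (V : ι → Matrix M N ℂ) :
    big (∑ i ∈ s, V i) = ∑ i ∈ s, big (V i) := by
  ext ⟨a, p⟩ ⟨b, q⟩
  simp only [big, Matrix.of_apply, Matrix.sum_apply]
  by_cases h : a = b <;> simp [h]

lemma B_mul_big (X : Fin 3 × Fin 3 → Matrix M M ℂ) (V : Matrix M N ℂ) (a b : Fin 3) (s : M)
    (t : N) : (B X * big V) (a, s) (b, t) = ent (fun j => X j * V) a b s t := by
  have h := ent_map (mulR (L := M) V) X a b
  change ent (fun j => X j * V) a b = ent X a b * V at h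
  rw [h, mul_big, Matrix.mul_apply]
  rfl

lemma big_mul_B (X : Fin 3 × Fin 3 → Matrix M M ℂ) (V : Matrix N M ℂ) (a b : Fin 3) (s : N)
    (t : M) : (big V * B X) (a, s) (b, t) = ent (fun j => V * X j) a b s t := by
  have h := ent_map (mulL (L := M) V) X a b
  change ent (fun j => V * X j) a b = V * ent X a b at h
  rw [h, big_mul, Matrix.mul_apply]
  rfl

lemma B_comp (X : Fin 3 × Fin 3 → Matrix M M ℂ) (V : Matrix M N ℂ) :
    B (fun j => Vᴴ * X j * V) = (big V)ᴴ * B X * big V := by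
  ext ⟨a, s⟩ ⟨b, t⟩
  rw [big_conjTranspose, mul_big]
  have h1 : ∀ k, (big Vᴴ * B X) (a, s) (b, k) = (Vᴴ * ent X a b) s k := by
    intro k
    rw [big_mul_B]
    have h := ent_map (mulL (L := M) Vᴴ) X a b
    change ent (fun j => Vᴴ * X j) a b = Vᴴ * ent X a b at h
    rw [h]
  simp only [h1]
  have h := ent_map ((mulR (L := N) V).comp (mulL (L := M) Vᴴ)) X a b
  change ent (fun j => Vᴴ * X j * V) a b = Vᴴ * ent X a b * V at h
  change ent (fun j => Vᴴ * X j * V) a b s t = _
  rw [h, Matrix.mul_apply]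

lemma B_sum {ι : Type*} (s : Finset ι) (X : ι → Fin 3 × Fin 3 → Matrix M M ℂ) :
    B (fun j => ∑ i ∈ s, X i j) = ∑ i ∈ s, B (X i) := by
  ext ⟨a, p⟩ ⟨b, q⟩
  change ent (fun j => ∑ i ∈ s, X i j) a b p q = _
  rw [ent_sum, Matrix.sum_apply, Matrix.sum_apply]
  rfl

lemma B_congr {X Y : Fin 3 × Fin 3 → Matrix M M ℂ} (h : ∀ j, X j = Y j) : B X = B Y := by
  rw [show X = Y from funext h]

lemma eq_of_B_mul {X : Fin 3 × Fin 3 → Matrix M M ℂ} {Y : Fin 3 × Fin 3 → Matrix N N ℂ}
    {V : Matrix M N ℂ} (h : B X * big V = big V * B Y) (j : Fin 3 × Fin 3) :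
    X j * V = V * Y j := by
  have h1 : ∀ a b, ent (fun j => X j * V - V * Y j) a b = 0 := by
    intro a b
    have h2 : ent (fun j => X j * V + (-1 : ℂ) • (V * Y j)) a b
        = ent (fun j => X j * V) a b + (-1 : ℂ) • ent (fun j => V * Y j) a b := by
      rw [ent_add]
      congr 1
      exact ent_map ((-1 : ℂ) • LinearMap.id : Matrix M N ℂ →ₗ[ℂ] Matrix M N ℂ) _ a b
    have h3 : ent (fun j => X j * V - V * Y j) a b
        = ent (fun j => X j * V + (-1 : ℂ) • (V * Y j)) a b := by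
      congr 1
      funext j
      rw [neg_one_smul, sub_eq_add_neg]
    rw [h3, h2]
    ext s t
    have h4 := congrFun (congrFun h (a, s)) (b, t)
    rw [B_mul_big, big_mul_B] at h4
    simp [h4]
  exact sub_eq_zero.1 (ent_zero h1 j)

lemma B_mul_of_eq {X : Fin 3 × Fin 3 → Matrix M M ℂ} {Y : Fin 3 × Fin 3 → Matrix N N ℂ}
    {V : Matrix M N ℂ} (h : ∀ j, X j * V = V * Y j) : B X * big V = big V * B Y := by
  ext ⟨a, s⟩ ⟨b, t⟩
  rw [B_mul_big, big_mul_B, show (fun j => X j * V) = fun j => V * Y j from funext h]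

end big

/-- Sums of positive semidefinite matrices. -/
lemma psd_sum {N ι : Type*} [Fintype N] (s : Finset ι) (M : ι → Matrix N N ℂ)
    (h : ∀ i ∈ s, (M i).PosSemidef) : (∑ i ∈ s, M i).PosSemidef := by
  classical
  induction s using Finset.induction_on with
  | empty => simpa using PosSemidef.zero
  | insert i s hi ih =>
    rw [Finset.sum_insert hi]
    exact (h i (Finset.mem_insert_self _ _)).add
      (ih fun k hk => h k (Finset.mem_insert_of_mem hk))

/-- `K` is matrix convex. -/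
lemma K_convex : MatrixConvex K := by
  refine ⟨fun n X hX => hX.1, ?_⟩
  rintro n - X ⟨ι, _, m, Y, V, hY, hV, hX⟩
  have hB : B X = ∑ i, (big (V i))ᴴ * B (Y i) * big (V i) := by
    rw [B_congr hX, B_sum]
    exact Finset.sum_congr rfl fun i _ => B_comp _ _
  have h1 : (1 : Matrix (Fin 3 × Fin n) (Fin 3 × Fin n) ℂ) = ∑ i, (big (V i))ᴴ * big (V i) := by
    simp only [big_conjTranspose, big_mul_big]
    rw [← big_sum, hV, big_one]
  refine ⟨fun j => ?_, ?_, ?_⟩
  · rw [hX j]
    unfold Matrix.IsHermitian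
    rw [Matrix.conjTranspose_sum]
    refine Finset.sum_congr rfl fun i _ => ?_
    rw [Matrix.conjTranspose_mul, Matrix.conjTranspose_mul, Matrix.conjTranspose_conjTranspose,
      ((hY i).2.1 j).eq, Matrix.mul_assoc]
  · have : 1 - B X = ∑ i, (big (V i))ᴴ * (1 - B (Y i)) * big (V i) := by
      rw [hB, h1, ← Finset.sum_sub_distrib]
      refine Finset.sum_congr rfl fun i _ => ?_
      rw [Matrix.mul_sub, Matrix.sub_mul, Matrix.mul_one]
    rw [this]
    exact psd_sum _ _ fun i _ => (hY i).2.2.1.conjTranspose_mul_mul_same _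
  · have : 1 + B X = ∑ i, (big (V i))ᴴ * (1 + B (Y i)) * big (V i) := by
      rw [hB, h1, ← Finset.sum_add_distrib]
      refine Finset.sum_congr rfl fun i _ => ?_
      rw [Matrix.mul_add, Matrix.add_mul, Matrix.mul_one]
    rw [this]
    exact psd_sum _ _ fun i _ => (hY i).2.2.2.conjTranspose_mul_mul_same _

/-- `1 - B²` is positive semidefinite on `K`. -/
lemma one_sub_sq {N : Type*} [Fintype N] [DecidableEq N] {H : Matrix N N ℂ}
    (h1 : (1 - H).PosSemidef) (h2 : (1 + H).PosSemidef) : (1 - H * H).PosSemidef := by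
  have hH : Hᴴ = H := by
    have := h2.1.eq
    rw [Matrix.conjTranspose_add, Matrix.conjTranspose_one] at this
    exact add_left_cancel this
  have e1 : (1 + H)ᴴ * (1 - H) * (1 + H) = (1 - H * H) * (1 + H) := by
    rw [h2.1.eq]; noncomm_ring
  have e2 : (1 - H)ᴴ * (1 + H) * (1 - H) = (1 - H * H) * (1 - H) := by
    rw [h1.1.eq]; noncomm_ring
  have e3 : 1 - H * H = (1 / 2 : ℂ) • ((1 + H)ᴴ * (1 - H) * (1 + H)
      + (1 - H)ᴴ * (1 + H) * (1 - H)) := by
    rw [e1, e2, ← Matrix.mul_add]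
    have : (1 + H) + (1 - H) = (2 : ℂ) • (1 : Matrix N N ℂ) := by
      rw [two_smul]; abel
    rw [this, Matrix.mul_smul, Matrix.mul_one, smul_smul]
    norm_num
  rw [e3]
  refine ((h1.conjTranspose_mul_mul_same _).add (h2.conjTranspose_mul_mul_same _)).smul ?_
  norm_num [Complex.le_def]

lemma B_herm {n : ℕ} {X : Tup (Fin 3 × Fin 3) n} (h : (1 + B X).PosSemidef) : (B X)ᴴ = B X := by
  have := h.1.eq
  rw [Matrix.conjTranspose_add, Matrix.conjTranspose_one] at this
  exact add_left_cancel this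

/-- A matrix convex combination giving a symmetry intertwines. -/
lemma intertwine {n : ℕ} {X : Tup (Fin 3 × Fin 3) n} (hX : X ∈ K n) (hsq : B X * B X = 1)
    {ι : Type} [Fintype ι] {m : ι → ℕ} {Y : ∀ i, Tup (Fin 3 × Fin 3) (m i)}
    {V : ∀ i, Matrix (Fin (m i)) (Fin n) ℂ} (hY : ∀ i, Y i ∈ K (m i))
    (hV : ∑ i, (V i)ᴴ * V i = 1) (hcomb : ∀ j, X j = ∑ i, (V i)ᴴ * Y i j * V i) (i : ι)
    (j : Fin 3 × Fin 3) : Y i j * V i = V i * X j := by
  classical
  apply eq_of_B_mul
  set W : ∀ i, Matrix (Fin 3 × Fin (m i)) (Fin 3 × Fin n) ℂ := fun i => big (V i) with hW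
  set D : ∀ i, Matrix (Fin 3 × Fin (m i)) (Fin 3 × Fin n) ℂ :=
    fun i => B (Y i) * W i - W i * B X with hD
  have hBX := B_herm hX.2.2
  have hB : B X = ∑ i, (W i)ᴴ * B (Y i) * W i := by
    rw [B_congr hcomb, B_sum]
    exact Finset.sum_congr rfl fun i _ => B_comp _ _
  have h1 : ∑ i, (W i)ᴴ * W i = 1 := by
    simp only [hW, big_conjTranspose, big_mul_big]
    rw [← big_sum, hV, big_one]
  have hDD : ∀ i, (D i)ᴴ * D i = (W i)ᴴ * (B (Y i) * B (Y i)) * W i
      - ((W i)ᴴ * B (Y i) * W i) * B X - B X * ((W i)ᴴ * B (Y i) * W i)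
      + B X * ((W i)ᴴ * W i) * B X := by
    intro i
    simp only [hD, Matrix.conjTranspose_sub, Matrix.conjTranspose_mul, hBX, B_herm (hY i).2.2]
    simp only [Matrix.sub_mul, Matrix.mul_sub, Matrix.mul_assoc]
    abel
  have hsum : ∑ i, (D i)ᴴ * D i = - ∑ i, (W i)ᴴ * (1 - B (Y i) * B (Y i)) * W i := by
    have e1 : ∑ i, (W i)ᴴ * (1 - B (Y i) * B (Y i)) * W i
        = 1 - ∑ i, (W i)ᴴ * (B (Y i) * B (Y i)) * W i := by
      rw [← h1, ← Finset.sum_sub_distrib]
      refine Finset.sum_congr rfl fun i _ => ?_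
      rw [Matrix.mul_sub, Matrix.sub_mul, Matrix.mul_one]
    rw [e1]
    simp only [hDD, Finset.sum_add_distrib, Finset.sum_sub_distrib]
    rw [← Matrix.sum_mul, ← Matrix.mul_sum, ← Matrix.sum_mul, ← Matrix.mul_sum, ← hB, h1]
    rw [Matrix.mul_one, hsq]
    abel
  have htr : ∑ i, ((D i)ᴴ * D i).trace = - ∑ i, ((W i)ᴴ * (1 - B (Y i) * B (Y i)) * W i).trace := by
    rw [← Matrix.trace_sum, hsum, Matrix.trace_neg, Matrix.trace_sum]
  have hnn1 : ∀ i, 0 ≤ ((D i)ᴴ * D i).trace := fun i =>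
    (Matrix.posSemidef_conjTranspose_mul_self (D i)).trace_nonneg
  have hnn2 : ∀ i, 0 ≤ ((W i)ᴴ * (1 - B (Y i) * B (Y i)) * W i).trace := fun i =>
    ((one_sub_sq (hY i).2.1 (hY i).2.2).conjTranspose_mul_mul_same _).trace_nonneg
  have hz : ∑ i, ((D i)ᴴ * D i).trace = 0 := by
    apply le_antisymm
    · rw [htr]
      exact neg_nonpos.2 (Finset.sum_nonneg fun i _ => hnn2 i)
    · exact Finset.sum_nonneg fun i _ => hnn1 i
  have hzi := (Finset.sum_eq_zero_iff_of_nonneg fun i _ => hnn1 i).1 hz i (Finset.mem_univ _)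
  have hD0 : D i = 0 := Matrix.trace_conjTranspose_mul_self_eq_zero_iff.1 hzi
  exact sub_eq_zero.1 hD0

/-- Completion of an isometry to a unitary. -/
lemma complete {m n : ℕ} (W : Matrix (Fin m) (Fin n) ℂ) (hW : Wᴴ * W = 1) :
    ∃ r, m = n + r ∧ ∃ U : Matrix (Fin m) (Fin n ⊕ Fin r) ℂ, Uᴴ * U = 1 ∧ U * Uᴴ = 1 ∧
      ∀ s t, U s (Sum.inl t) = W s t := by
  classical
  have hnm : n ≤ m := by
    have h1 : (1 : Matrix (Fin n) (Fin n) ℂ).rank ≤ m := by
      rw [← hW]
      refine (Matrix.rank_mul_le_right _ _).trans ?_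
      simpa using W.rank_le_height
    simpa using h1
  obtain ⟨r, rfl⟩ := Nat.exists_eq_add_of_le hnm
  refine ⟨r, rfl, ?_⟩
  -- the columns of `W`
  let v : Fin n ⊕ Fin r → EuclideanSpace ℂ (Fin (n + r)) := fun k =>
    Sum.elim (fun t => WithLp.toLp 2 (fun s => W s t)) (fun _ => 0) k
  have hinner : ∀ a b : Fin n, inner ℂ (v (Sum.inl a)) (v (Sum.inl b)) = (Wᴴ * W) a b := by
    intro a b
    simp only [v, Sum.elim_inl, Matrix.mul_apply, Matrix.conjTranspose_apply,
      PiLp.inner_apply, RCLike.inner_apply]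
    refine Finset.sum_congr rfl fun s _ => ?_
    simp [mul_comm]
  have hv : Orthonormal ℂ ((Set.range (Sum.inl : Fin n → Fin n ⊕ Fin r)).domRestrict v) := by
    rw [orthonormal_iff_ite]
    intro x y
    obtain ⟨_, a, rfl⟩ := x
    obtain ⟨_, b, rfl⟩ := y
    change inner ℂ (v (Sum.inl a)) (v (Sum.inl b)) = _
    rw [hinner, hW, Matrix.one_apply]
    by_cases hab : a = b
    · subst hab; simp
    · rw [if_neg hab, if_neg]
      intro h
      exact hab (Sum.inl.inj (congrArg Subtype.val h))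
  obtain ⟨b, hb⟩ := hv.exists_orthonormalBasis_extension_of_card_eq (by simp)
  have hbo := b.orthonormal
  rw [orthonormal_iff_ite] at hbo
  refine ⟨Matrix.of fun s k => b k s, ?_, ?_, ?_⟩
  · ext k l
    rw [Matrix.one_apply, ← hbo k l]
    simp only [Matrix.mul_apply, Matrix.conjTranspose_apply, Matrix.of_apply,
      PiLp.inner_apply, RCLike.inner_apply]
    refine Finset.sum_congr rfl fun s _ => ?_
    simp [mul_comm]
  · rw [← Matrix.mul_eq_one_comm_of_card_eq]
    · ext k l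
      rw [Matrix.one_apply, ← hbo k l]
      simp only [Matrix.mul_apply, Matrix.conjTranspose_apply, Matrix.of_apply,
        PiLp.inner_apply, RCLike.inner_apply]
      refine Finset.sum_congr rfl fun s _ => ?_
      simp [mul_comm]
    · simp
  · intro s t
    have := hb (Sum.inl t) ⟨t, rfl⟩
    simp only [Matrix.of_apply, this]
    rfl

/-- Only scalars commute with the tuple. -/
def Irr {J : Type} {n : ℕ} (X : Tup J n) : Prop :=
  ∀ T : Matrix (Fin n) (Fin n) ℂ, (∀ j, T * X j = X j * T) → ∃ c : ℂ, T = c • 1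

/-- Irreducible symmetries are free extreme points. -/
lemma irr_freeExt {n : ℕ} (hn : 0 < n) {X : Tup (Fin 3 × Fin 3) n} (hX : X ∈ K n)
    (hsq : B X * B X = 1) (hirr : Irr X) : X ∈ FreeExt K n := by
  refine ⟨hX, ?_⟩
  intro ι _ m Y V hY hV0 hV hcomb i
  have hint : ∀ j, Y i j * V i = V i * X j := intertwine hX hsq (fun i => (hY i).2) hV hcomb i
  have hYh := ((hY i).2).1
  obtain ⟨c, hc⟩ := hirr ((V i)ᴴ * V i) (fun j => by
    have h1 : X j * (V i)ᴴ = (V i)ᴴ * Y i j := by
      have := congrArg Matrix.conjTranspose (hint j)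
      rw [Matrix.conjTranspose_mul, Matrix.conjTranspose_mul, (hYh j).eq, (hX.1 j).eq] at this
      exact this.symm
    rw [← Matrix.mul_assoc, h1, Matrix.mul_assoc, Matrix.mul_assoc, hint j])
  -- the scalar is a positive real number
  obtain ⟨ρ, hρ, hcρ⟩ : ∃ ρ : ℝ, 0 < ρ ∧ c = ((ρ ^ 2 : ℝ) : ℂ) := by
    have h0 : 0 ≤ c := by
      have h1 := (Matrix.posSemidef_conjTranspose_mul_self (V i)).diag_nonneg (i := ⟨0, hn⟩)
      rw [hc] at h1
      simpa using h1
    have hre : 0 ≤ c.re ∧ c.im = 0 := by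
      rw [Complex.le_def] at h0
      exact ⟨by simpa using h0.1, by simpa using h0.2.symm⟩
    have hne : c ≠ 0 := by
      rintro rfl
      rw [zero_smul] at hc
      exact hV0 i (Matrix.conjTranspose_mul_self_eq_zero.1 hc)
    have hpos : 0 < c.re := by
      rcases hre.1.eq_or_lt with h | h
      · exact absurd (Complex.ext h.symm hre.2) hne
      · exact h
    refine ⟨Real.sqrt c.re, Real.sqrt_pos.2 hpos, ?_⟩
    rw [Real.sq_sqrt hpos.le]
    exact Complex.ext rfl (by simpa using hre.2)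
  have hρc : (ρ : ℂ) ≠ 0 := by exact_mod_cast hρ.ne'
  set W : Matrix (Fin (m i)) (Fin n) ℂ := ((ρ : ℂ)⁻¹) • V i with hWdef
  have hW : Wᴴ * W = 1 := by
    rw [hWdef, Matrix.conjTranspose_smul, Matrix.smul_mul, Matrix.mul_smul, hc, smul_smul,
      smul_smul, hcρ]
    have : star ((ρ : ℂ)⁻¹) * (ρ : ℂ)⁻¹ * ((ρ ^ 2 : ℝ) : ℂ) = 1 := by
      have e : star ((ρ : ℂ)⁻¹) = (ρ : ℂ)⁻¹ := by simp
      rw [e]
      push_cast
      field_simp
    rw [this, one_smul]
  have hYW : ∀ j, Y i j * W = W * X j := by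
    intro j
    rw [hWdef, Matrix.mul_smul, hint j, Matrix.smul_mul]
  obtain ⟨r, hr, U, hU1, hU2, hUW⟩ := complete W hW
  rcases Nat.eq_zero_or_pos r with hr0 | hr0
  · left
    have hmn : m i = n := by omega
    have hWW : W * Wᴴ = 1 :=
      (Matrix.mul_eq_one_comm_of_card_eq _ _ _ (A := W) (B := Wᴴ) (by simp [hmn])).2 hW
    refine ⟨hmn, W, hW, hWW, fun j => ?_⟩
    rw [← hYW j, Matrix.mul_assoc, hWW, Matrix.mul_one]
  · right
    refine ⟨by omega, r, hr0, hr, ?_⟩
    set W2 : Matrix (Fin (m i)) (Fin r) ℂ := Matrix.of fun s t => U s (Sum.inr t) with hW2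
    have hUc : U = Matrix.fromCols W W2 := by
      ext s (t | t)
      · exact hUW s t
      · rfl
    have hUh : Uᴴ = Matrix.fromRows Wᴴ W2ᴴ := by
      rw [hUc, Matrix.conjTranspose_fromCols_eq_fromRows_conjTranspose]
    have hbl : Matrix.fromBlocks (Wᴴ * W) (Wᴴ * W2) (W2ᴴ * W) (W2ᴴ * W2)
        = Matrix.fromBlocks 1 0 0 1 := by
      rw [← Matrix.fromRows_mul_fromCols, ← hUh, ← hUc, hU1, Matrix.fromBlocks_one]
    obtain ⟨-, h12, h21, h22⟩ := Matrix.fromBlocks_inj.1 hbl
    refine ⟨fun j => W2ᴴ * Y i j * W2, ?_, U, hU1, hU2, fun j => ?_⟩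
    · refine K_convex.2 r hr0 _ ⟨Unit, inferInstance, fun _ => m i, fun _ => Y i, fun _ => W2,
        fun _ => hY i, ?_, fun j => ?_⟩
      · simpa using h22
      · simp
    · have e1 : Uᴴ * (Y i j * U) = Matrix.fromBlocks (X j) 0 0 (W2ᴴ * Y i j * W2) := by
        rw [hUh]
        conv_lhs => rw [hUc]
        rw [Matrix.mul_fromCols, Matrix.fromRows_mul_fromCols]
        congr 1
        · rw [hYW j, ← Matrix.mul_assoc, hW, Matrix.one_mul]
        · have : Wᴴ * Y i j = X j * Wᴴ := by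
            have := congrArg Matrix.conjTranspose (hYW j)
            rwa [Matrix.conjTranspose_mul, Matrix.conjTranspose_mul, (hYh j).eq,
              (hX.1 j).eq] at this
          rw [← Matrix.mul_assoc, this, Matrix.mul_assoc, h12, Matrix.mul_zero]
        · rw [hYW j, ← Matrix.mul_assoc, h21, Matrix.zero_mul]
        · rw [Matrix.mul_assoc]
      rw [← e1]
      rw [show U * (Uᴴ * (Y i j * U)) * Uᴴ = (U * Uᴴ) * Y i j * (U * Uᴴ) by
        simp only [Matrix.mul_assoc], hU2, Matrix.one_mul, Matrix.mul_one]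

/-- Matrix convex combinations compose. -/
lemma IsMCC.trans' {J : Type} {S : MSet J} {n : ℕ} {X : Tup J n} {ι : Type} [Fintype ι]
    {m : ι → ℕ} {Y : ∀ i, Tup J (m i)} {V : ∀ i, Matrix (Fin (m i)) (Fin n) ℂ}
    (hY : ∀ i, IsMCC S (m i) (Y i)) (hV : ∑ i, (V i)ᴴ * V i = 1)
    (hX : ∀ j, X j = ∑ i, (V i)ᴴ * Y i j * V i) : IsMCC S n X := by
  choose κ fκ m' Y' V' h1 h2 h3 using hY
  refine ⟨Σ i, κ i, @Sigma.instFintype _ _ fκ _, fun p => m' p.1 p.2, fun p => Y' p.1 p.2,
    fun p => V' p.1 p.2 * V p.1, fun p => h1 p.1 p.2, ?_, fun j => ?_⟩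
  · rw [Fintype.sum_sigma]
    rw [← hV]
    refine Finset.sum_congr rfl fun i _ => ?_
    have : ∀ k : κ i, (V' i k * V i)ᴴ * (V' i k * V i) = (V i)ᴴ * ((V' i k)ᴴ * V' i k) * V i := by
      intro k
      rw [Matrix.conjTranspose_mul]; simp only [Matrix.mul_assoc]
    simp only [this]
    rw [← Matrix.sum_mul, ← Matrix.mul_sum, h2 i, Matrix.mul_one]
  · rw [Fintype.sum_sigma, hX j]
    refine Finset.sum_congr rfl fun i _ => ?_
    have : ∀ k : κ i, (V' i k * V i)ᴴ * Y' i k j * (V' i k * V i)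
        = (V i)ᴴ * ((V' i k)ᴴ * Y' i k j * V' i k) * V i := by
      intro k
      rw [Matrix.conjTranspose_mul]; simp only [Matrix.mul_assoc]
    simp only [this]
    rw [← Matrix.sum_mul, ← Matrix.mul_sum, ← h3 i j]

/-- A reducible self-adjoint tuple splits. -/
lemma split {J : Type} {n : ℕ} (hn : 0 < n) {X : Tup J n} (hX : ∀ j, (X j).IsHermitian)
    (hirr : ¬ Irr X) : ∃ r₁ r₂, 0 < r₁ ∧ 0 < r₂ ∧ r₁ < n ∧ r₂ < n ∧
      ∃ (W₁ : Matrix (Fin n) (Fin r₁) ℂ) (W₂ : Matrix (Fin n) (Fin r₂) ℂ),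
        W₁ᴴ * W₁ = 1 ∧ W₂ᴴ * W₂ = 1 ∧ W₁ * W₁ᴴ + W₂ * W₂ᴴ = 1 ∧
        ∀ j, W₂ᴴ * (X j * W₁) = 0 := by
  unfold Irr at hirr
  push Not at hirr
  obtain ⟨T, hT, hTs⟩ := hirr
  have : Nonempty (Fin n) := ⟨⟨0, hn⟩⟩
  have : Nontrivial (EuclideanSpace ℂ (Fin n)) := inferInstance
  obtain ⟨c, hc⟩ := Module.End.exists_eigenvalue (Matrix.toEuclideanLin T)
  set E := Module.End.eigenspace (Matrix.toEuclideanLin T) c with hE
  set b := stdOrthonormalBasis ℂ E with hb
  set r := Module.finrank ℂ E with hr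
  have hmem : ∀ x : EuclideanSpace ℂ (Fin n), x ∈ E ↔
      T.mulVec (WithLp.ofLp x) = c • WithLp.ofLp x := by
    intro x
    rw [hE, Module.End.mem_eigenspace_iff]
    constructor
    · intro h
      have := congrArg WithLp.ofLp h
      simpa [Matrix.toLpLin_apply] using this
    · intro h
      apply WithLp.ofLp_injective 2
      simpa [Matrix.toLpLin_apply] using h
  let W : Matrix (Fin n) (Fin r) ℂ := Matrix.of fun s k => (b k : EuclideanSpace ℂ (Fin n)) s
  have hW : Wᴴ * W = 1 := by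
    have hbo := b.orthonormal
    rw [orthonormal_iff_ite] at hbo
    ext k l
    rw [Matrix.one_apply, ← hbo k l]
    simp only [W, Matrix.mul_apply, Matrix.conjTranspose_apply, Matrix.of_apply,
      Submodule.coe_inner, PiLp.inner_apply, RCLike.inner_apply]
    refine Finset.sum_congr rfl fun s _ => ?_
    simp [mul_comm]
  have hproj : ∀ {l : ℕ} (M : Matrix (Fin n) (Fin l) ℂ), T * M = c • M → M = W * (Wᴴ * M) := by
    intro l M hM
    ext s t
    have hx : (WithLp.toLp 2 (fun s => M s t) : EuclideanSpace ℂ (Fin n)) ∈ E := by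
      rw [hmem]
      funext s
      have := congrFun (congrFun hM s) t
      simpa [Matrix.mulVec, dotProduct, Matrix.mul_apply] using this
    have h1 := b.sum_repr' ⟨_, hx⟩
    have h2 := congrArg (fun x : E => (x : EuclideanSpace ℂ (Fin n)) s) h1
    simp only [Submodule.coe_sum, Submodule.coe_smul, Submodule.coe_inner] at h2
    rw [Matrix.mul_apply]
    have h3 : (∑ i, inner ℂ (b i : EuclideanSpace ℂ (Fin n)) (WithLp.toLp 2 fun s => M s t) •
        (b i : EuclideanSpace ℂ (Fin n))) s = M s t := by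
      rw [h2]
    rw [← h3]
    simp only [WithLp.ofLp_sum, Finset.sum_apply, WithLp.ofLp_smul, Pi.smul_apply, smul_eq_mul]
    refine Finset.sum_congr rfl fun k _ => ?_
    rw [mul_comm]
    congr 1
    rw [Matrix.mul_apply]
    simp only [W, PiLp.inner_apply, RCLike.inner_apply, Matrix.conjTranspose_apply,
      Matrix.of_apply]
    refine Finset.sum_congr rfl fun s _ => ?_
    simp [mul_comm]
  have hTW : T * W = c • W := by
    ext s k
    have := (hmem _).1 (b k).2
    have := congrFun this s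
    simpa [Matrix.mulVec, dotProduct, Matrix.mul_apply, W] using this
  have hXW : ∀ j, X j * W = W * (Wᴴ * (X j * W)) := by
    intro j
    apply hproj
    rw [← Matrix.mul_assoc, hT j, Matrix.mul_assoc, hTW, Matrix.mul_smul]
  obtain ⟨r₂, hr₂, U, hU1, hU2, hUW⟩ := complete W hW
  set W2 : Matrix (Fin n) (Fin r₂) ℂ := Matrix.of fun s t => U s (Sum.inr t) with hW2
  have hUc : U = Matrix.fromCols W W2 := by
    ext s (t | t)
    · exact hUW s t
    · rfl
  have hUh : Uᴴ = Matrix.fromRows Wᴴ W2ᴴ := by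
    rw [hUc, Matrix.conjTranspose_fromCols_eq_fromRows_conjTranspose]
  have hbl : Matrix.fromBlocks (Wᴴ * W) (Wᴴ * W2) (W2ᴴ * W) (W2ᴴ * W2)
      = Matrix.fromBlocks 1 0 0 1 := by
    rw [← Matrix.fromRows_mul_fromCols, ← hUh, ← hUc, hU1, Matrix.fromBlocks_one]
  obtain ⟨-, h12, h21, h22⟩ := Matrix.fromBlocks_inj.1 hbl
  have hrpos : 0 < r := by
    rw [hr]
    have hne : E ≠ ⊥ := hc
    exact Module.finrank_pos_iff_exists_ne_zero.2 (by
      obtain ⟨x, hx, hx0⟩ := Submodule.exists_mem_ne_zero_of_ne_bot hne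
      exact ⟨⟨x, hx⟩, by simpa using hx0⟩)
  have hr2pos : 0 < r₂ := by
    rcases Nat.eq_zero_or_pos r₂ with h0 | h0
    · exfalso
      have hnr : n = r := by omega
      have hWW : W * Wᴴ = 1 :=
        (Matrix.mul_eq_one_comm_of_card_eq _ _ _ (A := W) (B := Wᴴ) (by simpa using hnr)).2 hW
      apply hTs c
      have : T * (W * Wᴴ) = c • (W * Wᴴ) := by rw [← Matrix.mul_assoc, hTW, Matrix.smul_mul]
      rwa [hWW, Matrix.mul_one] at this
    · exact h0
  refine ⟨r, r₂, hrpos, hr2pos, by omega, by omega, W, W2, hW, h22, ?_, fun j => ?_⟩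
  · have := hU2
    rw [hUh] at this
    rw [hUc, Matrix.fromCols_mul_fromRows] at this
    exact this
  · rw [hXW j, ← Matrix.mul_assoc, h21, Matrix.zero_mul]

/-- Symmetries are matrix convex combinations of free extreme points. -/
lemma sym_mcc : ∀ n, 0 < n → ∀ X : Tup (Fin 3 × Fin 3) n, X ∈ K n → B X * B X = 1 →
    IsMCC (FreeExt K) n X := by
  intro n
  induction n using Nat.strong_induction_on with
  | _ n ih =>
  intro hn X hX hsq
  by_cases hirr : Irr X
  · exact ⟨Unit, inferInstance, fun _ => n, fun _ => X, fun _ => 1,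
      fun _ => ⟨hn, irr_freeExt hn hX hsq hirr⟩, by simp, fun j => by simp⟩
  · obtain ⟨r₁, r₂, h1, h2, h1n, h2n, W₁, W₂, hW1, hW2, hsum, horth⟩ := split hn hX.1 hirr
    have hX1 : ∀ j, X j * W₁ = W₁ * (W₁ᴴ * X j * W₁) := by
      intro j
      calc X j * W₁ = (W₁ * W₁ᴴ + W₂ * W₂ᴴ) * (X j * W₁) := by rw [hsum, Matrix.one_mul]
        _ = _ := by
          rw [Matrix.add_mul, Matrix.mul_assoc W₂, horth j, Matrix.mul_zero, add_zero]
          simp only [Matrix.mul_assoc]
    have horth' : ∀ j, W₁ᴴ * (X j * W₂) = 0 := by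
      intro j
      have := congrArg Matrix.conjTranspose (horth j)
      rw [Matrix.conjTranspose_mul, Matrix.conjTranspose_mul, Matrix.conjTranspose_conjTranspose,
        (hX.1 j).eq, Matrix.conjTranspose_zero, Matrix.mul_assoc] at this
      exact this
    have hX2 : ∀ j, X j * W₂ = W₂ * (W₂ᴴ * X j * W₂) := by
      intro j
      calc X j * W₂ = (W₁ * W₁ᴴ + W₂ * W₂ᴴ) * (X j * W₂) := by rw [hsum, Matrix.one_mul]
        _ = _ := by
          rw [Matrix.add_mul, Matrix.mul_assoc W₁, horth' j, Matrix.mul_zero, zero_add]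
          simp only [Matrix.mul_assoc]
    have general : ∀ {r : ℕ} (_ : 0 < r) (_ : r < n) (W : Matrix (Fin n) (Fin r) ℂ),
        Wᴴ * W = 1 → (∀ j, X j * W = W * (Wᴴ * X j * W)) →
        IsMCC (FreeExt K) r (fun j => Wᴴ * X j * W) := by
      intro r hr hrn W hW hXW
      refine ih r hrn hr _ ?_ ?_
      · exact K_convex.2 r hr _ ⟨Unit, inferInstance, fun _ => n, fun _ => X, fun _ => W,
          fun _ => ⟨hn, hX⟩, by simpa using hW, fun j => by simp⟩
      · have hb : B X * big W = big W * B (fun j => Wᴴ * X j * W) := B_mul_of_eq hXW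
        calc B (fun j => Wᴴ * X j * W) * B (fun j => Wᴴ * X j * W)
            = (big W)ᴴ * B X * big W * B (fun j => Wᴴ * X j * W) := by rw [← B_comp X W]
          _ = (big W)ᴴ * B X * (big W * B (fun j => Wᴴ * X j * W)) := by
            rw [Matrix.mul_assoc]
          _ = (big W)ᴴ * (B X * B X) * big W := by
            rw [← hb]; simp only [Matrix.mul_assoc]
          _ = 1 := by
            rw [hsq, Matrix.mul_one, big_conjTranspose, big_mul_big, hW, big_one]
    refine IsMCC.trans' (ι := Bool) (m := fun b => cond b r₁ r₂)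
      (Y := fun b => match b with
        | true => (fun j => W₁ᴴ * X j * W₁ : Tup (Fin 3 × Fin 3) r₁)
        | false => (fun j => W₂ᴴ * X j * W₂ : Tup (Fin 3 × Fin 3) r₂))
      (V := fun b => match b with
        | true => W₁ᴴ
        | false => W₂ᴴ) ?_ ?_ ?_
    · rintro (_ | _)
      · exact general h2 h2n W₂ hW2 hX2
      · exact general h1 h1n W₁ hW1 hX1
    · rw [Fintype.sum_bool]
      simpa using hsum
    · intro j
      rw [Fintype.sum_bool]
      change X j = (W₁ᴴ)ᴴ * (W₁ᴴ * X j * W₁) * W₁ᴴ + (W₂ᴴ)ᴴ * (W₂ᴴ * X j * W₂) * W₂ᴴ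
      rw [Matrix.conjTranspose_conjTranspose, Matrix.conjTranspose_conjTranspose, ← hX1, ← hX2,
        Matrix.mul_assoc, Matrix.mul_assoc, ← Matrix.mul_add, hsum, Matrix.mul_one]

/-- A self-adjoint contraction has a commuting defect operator. -/
lemma defect {N : Type} [Fintype N] [DecidableEq N] {H : Matrix N N ℂ} (hH : H.IsHermitian)
    (h : (1 - H * H).PosSemidef) : ∃ D : Matrix N N ℂ, D.IsHermitian ∧ D * D = 1 - H * H ∧
      D * H = H * D := by
  set U : Matrix N N ℂ := (hH.eigenvectorUnitary : Matrix N N ℂ) with hU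
  have hUU : Uᴴ * U = 1 := by
    have := Unitary.coe_star_mul_self hH.eigenvectorUnitary
    simpa [Matrix.star_eq_conjTranspose] using this
  have hUU' : U * Uᴴ = 1 := by
    have := Unitary.coe_mul_star_self hH.eigenvectorUnitary
    simpa [Matrix.star_eq_conjTranspose] using this
  set lam : N → ℝ := hH.eigenvalues with hlam
  have hspec : H = U * diagonal (fun i => ((lam i : ℝ) : ℂ)) * Uᴴ := by
    have := hH.spectral_theorem
    rw [Unitary.conjStarAlgAut_apply] at this
    exact this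
  have hH2 : H * H = U * diagonal (fun i => (((lam i) ^ 2 : ℝ) : ℂ)) * Uᴴ := by
    conv_lhs => rw [hspec]
    rw [show U * diagonal (fun i => ((lam i : ℝ) : ℂ)) * Uᴴ *
      (U * diagonal (fun i => ((lam i : ℝ) : ℂ)) * Uᴴ)
      = U * (diagonal (fun i => ((lam i : ℝ) : ℂ)) * (Uᴴ * U) *
        diagonal (fun i => ((lam i : ℝ) : ℂ))) * Uᴴ by simp only [Matrix.mul_assoc]]
    rw [hUU, Matrix.mul_one, diagonal_mul_diagonal]
    congr 3
    funext i
    push_cast
    ring
  have hdiag : 1 - H * H = U * diagonal (fun i => ((1 - (lam i) ^ 2 : ℝ) : ℂ)) * Uᴴ := by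
    rw [hH2]
    have : (1 : Matrix N N ℂ) = U * 1 * Uᴴ := by rw [Matrix.mul_one, hUU']
    conv_lhs => rw [this]
    rw [← Matrix.sub_mul, ← Matrix.mul_sub]
    congr 2
    rw [← diagonal_one, diagonal_sub]
    congr 1
    funext i
    push_cast
    ring
  have hpos : ∀ i, 0 ≤ 1 - (lam i) ^ 2 := by
    intro i
    have h1 := (h.conjTranspose_mul_mul_same U).diag_nonneg (i := i)
    have h2 : Uᴴ * (1 - H * H) * U = diagonal (fun i => ((1 - (lam i) ^ 2 : ℝ) : ℂ)) := by
      rw [hdiag, show Uᴴ * (U * diagonal (fun i => ((1 - (lam i) ^ 2 : ℝ) : ℂ)) * Uᴴ) * U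
        = (Uᴴ * U) * diagonal (fun i => ((1 - (lam i) ^ 2 : ℝ) : ℂ)) * (Uᴴ * U) by
          simp only [Matrix.mul_assoc], hUU, Matrix.one_mul, Matrix.mul_one]
    rw [h2, diagonal_apply_eq] at h1
    exact_mod_cast h1
  refine ⟨U * diagonal (fun i => ((Real.sqrt (1 - (lam i) ^ 2) : ℝ) : ℂ)) * Uᴴ, ?_, ?_, ?_⟩
  · unfold Matrix.IsHermitian
    rw [Matrix.conjTranspose_mul, Matrix.conjTranspose_mul, Matrix.conjTranspose_conjTranspose,
      diagonal_conjTranspose, Matrix.mul_assoc]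
    congr 3
    funext i
    simp
  · rw [hdiag, show U * diagonal (fun i => ((Real.sqrt (1 - (lam i) ^ 2) : ℝ) : ℂ)) * Uᴴ *
      (U * diagonal (fun i => ((Real.sqrt (1 - (lam i) ^ 2) : ℝ) : ℂ)) * Uᴴ)
      = U * (diagonal (fun i => ((Real.sqrt (1 - (lam i) ^ 2) : ℝ) : ℂ)) * (Uᴴ * U) *
        diagonal (fun i => ((Real.sqrt (1 - (lam i) ^ 2) : ℝ) : ℂ))) * Uᴴ by
        simp only [Matrix.mul_assoc], hUU, Matrix.mul_one, diagonal_mul_diagonal]
    congr 3
    funext i
    rw [← Complex.ofReal_mul, Real.mul_self_sqrt (hpos i)]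
  · rw [hspec]
    rw [show U * diagonal (fun i => ((Real.sqrt (1 - (lam i) ^ 2) : ℝ) : ℂ)) * Uᴴ *
      (U * diagonal (fun i => ((lam i : ℝ) : ℂ)) * Uᴴ)
      = U * (diagonal (fun i => ((Real.sqrt (1 - (lam i) ^ 2) : ℝ) : ℂ)) * (Uᴴ * U) *
        diagonal (fun i => ((lam i : ℝ) : ℂ))) * Uᴴ by
        simp only [Matrix.mul_assoc], show U * diagonal (fun i => ((lam i : ℝ) : ℂ)) * Uᴴ *
      (U * diagonal (fun i => ((Real.sqrt (1 - (lam i) ^ 2) : ℝ) : ℂ)) * Uᴴ)
      = U * (diagonal (fun i => ((lam i : ℝ) : ℂ)) * (Uᴴ * U) *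
        diagonal (fun i => ((Real.sqrt (1 - (lam i) ^ 2) : ℝ) : ℂ))) * Uᴴ by
        simp only [Matrix.mul_assoc], hUU, Matrix.mul_one, Matrix.mul_one, diagonal_mul_diagonal,
        diagonal_mul_diagonal]
    congr 3
    funext i
    ring

/-- The index equivalence. -/
def phi (n : ℕ) : Fin 3 × Fin (n + n) ≃ (Fin 3 × Fin n) ⊕ (Fin 3 × Fin n) :=
  ((Equiv.refl (Fin 3)).prodCongr finSumFinEquiv.symm).trans (Equiv.prodSumDistrib _ _ _)

lemma phi_castAdd {n : ℕ} (a : Fin 3) (s : Fin n) :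
    phi n (a, Fin.castAdd n s) = Sum.inl (a, s) := by
  simp [phi]

lemma psd_of_sq {N : Type} [Fintype N] [DecidableEq N] {S : Matrix N N ℂ} (hS : Sᴴ = S)
    (hsq : S * S = 1) : (1 - S).PosSemidef ∧ (1 + S).PosSemidef := by
  have hhalf : (0 : ℂ) ≤ 1 / 2 := by norm_num [Complex.le_def]
  constructor
  · have : 1 - S = (1 / 2 : ℂ) • ((1 - S)ᴴ * (1 - S)) := by
      have e : (1 - S)ᴴ * (1 - S) = (2 : ℂ) • (1 - S) := by
        rw [Matrix.conjTranspose_sub, Matrix.conjTranspose_one, hS]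
        have : (1 - S) * (1 - S) = 1 - S - S + S * S := by noncomm_ring
        rw [this, hsq, two_smul]
        abel
      rw [e, smul_smul]; norm_num
    rw [this]
    exact (Matrix.posSemidef_conjTranspose_mul_self _).smul hhalf
  · have : 1 + S = (1 / 2 : ℂ) • ((1 + S)ᴴ * (1 + S)) := by
      have e : (1 + S)ᴴ * (1 + S) = (2 : ℂ) • (1 + S) := by
        rw [Matrix.conjTranspose_add, Matrix.conjTranspose_one, hS]
        have : (1 + S) * (1 + S) = 1 + S + S + S * S := by noncomm_ring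
        rw [this, hsq, two_smul]
        abel
      rw [e, smul_smul]; norm_num
    rw [this]
    exact (Matrix.posSemidef_conjTranspose_mul_self _).smul hhalf

lemma B_inj {n : ℕ} {X Y : Tup (Fin 3 × Fin 3) n} (h : B X = B Y) (j : Fin 3 × Fin 3) :
    X j = Y j := by
  have := eq_of_B_mul (X := X) (Y := Y) (V := 1) (by rw [big_one, h, Matrix.mul_one,
    Matrix.one_mul]) j
  simpa using this

/-- Every element of `K` is a matrix convex combination of free extreme points. -/
lemma K_sub {n : ℕ} (hn : 0 < n) {X : Tup (Fin 3 × Fin 3) n} (hX : X ∈ K n) :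
    IsMCC (FreeExt K) n X := by
  obtain ⟨D, hD, hDD, hDH⟩ := defect (B_herm hX.2.2) (one_sub_sq hX.2.1 hX.2.2)
  set H := B X with hH
  have hHh : Hᴴ = H := B_herm hX.2.2
  set S0 : Matrix ((Fin 3 × Fin n) ⊕ (Fin 3 × Fin n)) ((Fin 3 × Fin n) ⊕ (Fin 3 × Fin n)) ℂ :=
    fromBlocks H D D (-H) with hS0
  set S : Matrix (Fin 3 × Fin (n + n)) (Fin 3 × Fin (n + n)) ℂ := S0.submatrix (phi n) (phi n)
    with hS
  have hS0h : S0ᴴ = S0 := by
    rw [hS0, fromBlocks_conjTranspose, hHh, hD.eq, Matrix.conjTranspose_neg, hHh]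
  have hS0sq : S0 * S0 = 1 := by
    rw [hS0, fromBlocks_multiply, hDD]
    simp [hDH]
  have hSh : Sᴴ = S := by
    rw [hS, conjTranspose_submatrix, hS0h]
  have hSsq : S * S = 1 := by
    rw [hS, submatrix_mul_equiv, hS0sq, submatrix_one_equiv]
  obtain ⟨p1, p2⟩ := psd_of_sq hSh hSsq
  have hBS : B (coef S) = S := B_coef S
  have hmem : (coef S : Tup (Fin 3 × Fin 3) (n + n)) ∈ K (n + n) :=
    ⟨fun j => coef_herm hSh j, by rw [hBS]; exact p1, by rw [hBS]; exact p2⟩
  have hmcc := sym_mcc (n + n) (by omega) (coef S) hmem (by rw [hBS, hSsq])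
  set V : Matrix (Fin (n + n)) (Fin n) ℂ :=
    Matrix.of fun s t => if s = Fin.castAdd n t then 1 else 0 with hV
  have hVV : Vᴴ * V = 1 := by
    ext s t
    simp only [hV, Matrix.mul_apply, Matrix.conjTranspose_apply, Matrix.of_apply,
      Matrix.one_apply]
    simp only [mul_ite, mul_one, mul_zero, Finset.sum_ite_eq', Finset.mem_univ, if_true]
    by_cases hst : s = t
    · simp [hst]
    · rw [if_neg hst, if_neg]
      · simp
      · intro h
        exact hst (Fin.castAdd_injective _ _ h.symm)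
  refine IsMCC.trans' (ι := Unit) (m := fun _ => n + n) (Y := fun _ => coef S) (V := fun _ => V)
    (fun _ => hmcc) (by simpa using hVV) (fun j => ?_)
  rw [Fintype.sum_unique]
  refine B_inj (X := X) (Y := fun j => Vᴴ * coef S j * V) ?_ j
  rw [B_comp, hBS]
  ext ⟨a, s⟩ ⟨b, t⟩
  rw [mul_big]
  simp only [hV, Matrix.of_apply, mul_ite, mul_one, mul_zero, Finset.sum_ite_eq', Finset.mem_univ,
    if_true]
  rw [big_conjTranspose, big_mul]
  simp only [Matrix.conjTranspose_apply, Matrix.of_apply]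
  have : ∀ k : Fin (n + n), star (if k = Fin.castAdd n s then (1 : ℂ) else 0) *
      S (a, k) (b, Fin.castAdd n t) = if k = Fin.castAdd n s then S (a, k) (b, Fin.castAdd n t)
        else 0 := by
    intro k
    split_ifs <;> simp
  simp only [this, Finset.sum_ite_eq', Finset.mem_univ, if_true]
  rw [hS, submatrix_apply, phi_castAdd, phi_castAdd, hS0, fromBlocks_apply₁₁]

lemma K_iff {n : ℕ} (hn : 0 < n) (X : Tup (Fin 3 × Fin 3) n) :
    X ∈ K n ↔ IsMCC (FreeExt K) n X := by
  refine ⟨K_sub hn, ?_⟩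
  rintro ⟨ι, fι, m, Y, V, hY, hV, hX⟩
  exact K_convex.2 n hn X ⟨ι, fι, m, Y, V, fun i => ⟨(hY i).1, (hY i).2.1⟩, hV, hX⟩

/-! ### `K` is closed and bounded -/

lemma K_closed (n : ℕ) : IsClosed (K n) := by
  have hB : Continuous (fun X : Tup (Fin 3 × Fin 3) n => B X) := by
    refine continuous_matrix fun p q => ?_
    simp only [B, Matrix.of_apply, ent]
    split_ifs
    · exact ((continuous_apply _).matrix_elem _ _)
    · simp only [Matrix.add_apply, Matrix.smul_apply, smul_eq_mul]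
      exact ((continuous_apply _).matrix_elem _ _).add
        (continuous_const.mul ((continuous_apply _).matrix_elem _ _))
    · simp only [Matrix.sub_apply, Matrix.smul_apply, smul_eq_mul]
      exact ((continuous_apply _).matrix_elem _ _).sub
        (continuous_const.mul ((continuous_apply _).matrix_elem _ _))
  have hpsd : IsClosed {M : Matrix (Fin 3 × Fin n) (Fin 3 × Fin n) ℂ | M.PosSemidef} := by
    have : {M : Matrix (Fin 3 × Fin n) (Fin 3 × Fin n) ℂ | M.PosSemidef}
        = {M | Mᴴ = M} ∩ ⋂ x : Fin 3 × Fin n → ℂ, {M | 0 ≤ star x ⬝ᵥ (M *ᵥ x)} := by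
      ext M
      simp only [Set.mem_ofPred_eq, Set.mem_inter_iff, Set.mem_iInter,
        Matrix.posSemidef_iff_dotProduct_mulVec]
      rfl
    rw [this]
    refine (isClosed_eq continuous_id.matrix_conjTranspose continuous_id).inter
      (isClosed_iInter fun x => isClosed_le continuous_const ?_)
    exact continuous_const.dotProduct (continuous_id.matrix_mulVec continuous_const)
  have : K n = (⋂ j, {X : Tup (Fin 3 × Fin 3) n | (X j)ᴴ = X j}) ∩
      ((fun X => 1 - B X) ⁻¹' {M | M.PosSemidef} ∩ (fun X => 1 + B X) ⁻¹' {M | M.PosSemidef}) := by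
    ext X
    simp only [K, Set.mem_ofPred_eq, Set.mem_inter_iff, Set.mem_iInter, Set.mem_preimage]
    rfl
  rw [this]
  refine (isClosed_iInter fun j => isClosed_eq ?_ ?_).inter
    ((hpsd.preimage (continuous_const.sub hB)).inter (hpsd.preimage (continuous_const.add hB)))
  · exact (continuous_apply j).matrix_conjTranspose
  · exact continuous_apply j

lemma K_bdd {n : ℕ} {X : Tup (Fin 3 × Fin 3) n} (hX : X ∈ K n) (j : Fin 3 × Fin 3)
    (s t : Fin n) : ‖X j s t‖ ≤ 1 := by
  have hpsd := one_sub_sq hX.2.1 hX.2.2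
  have hBh := B_herm hX.2.2
  have hB : ∀ p q, ‖B X p q‖ ≤ 1 := by
    intro p q
    have h1 := hpsd.diag_nonneg (i := p)
    rw [Matrix.sub_apply, Matrix.one_apply_eq, Matrix.mul_apply] at h1
    have h2 : ∑ k, B X p k * B X k p = ((∑ k, ‖B X p k‖ ^ 2 : ℝ) : ℂ) := by
      push_cast
      refine Finset.sum_congr rfl fun k _ => ?_
      have : B X k p = (starRingEnd ℂ) (B X p k) := by
        have := congrFun (congrFun hBh k) p
        rw [Matrix.conjTranspose_apply] at this
        exact this.symm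
      rw [this, Complex.mul_conj, Complex.normSq_eq_norm_sq]
      push_cast
      rfl
    rw [h2] at h1
    have h3 : 0 ≤ 1 - ∑ k, ‖B X p k‖ ^ 2 := by exact_mod_cast h1
    have h4 : ‖B X p q‖ ^ 2 ≤ ∑ k, ‖B X p k‖ ^ 2 :=
      Finset.single_le_sum (f := fun k => ‖B X p k‖ ^ 2) (fun k _ => by positivity)
        (Finset.mem_univ q)
    have h5 : 0 ≤ ‖B X p q‖ := norm_nonneg _
    nlinarith
  have hc : X j = coef (B X) j := B_inj (X := X) (Y := coef (B X)) (by rw [B_coef]) j
  rw [hc]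
  simp only [coef, Matrix.of_apply]
  split_ifs
  · exact hB _ _
  · rw [norm_mul]
    have := norm_add_le (B X (j.1, s) (j.2, t)) (B X (j.2, s) (j.1, t))
    have h1 := hB (j.1, s) (j.2, t)
    have h2 := hB (j.2, s) (j.1, t)
    have h3 : ‖(1 / 2 : ℂ)‖ = 1 / 2 := by norm_num
    rw [h3]
    linarith
  · rw [norm_mul]
    have := norm_sub_le (B X (j.2, s) (j.1, t)) (B X (j.1, s) (j.2, t))
    have h1 := hB (j.1, s) (j.2, t)
    have h2 := hB (j.2, s) (j.1, t)
    have h3 : ‖(1 / (2 * Complex.I) : ℂ)‖ = 1 / 2 := by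
      rw [norm_div, norm_mul, Complex.norm_I]
      norm_num
    rw [h3]
    linarith

/-! ### The projection -/

/-- The first row entries. -/
def row1 {N : Type} (X : Fin 4 → Matrix N N ℂ) : Matrix N N ℂ := X 0 + Complex.I • X 1

/-- The second row entry. -/
def row2 {N : Type} (X : Fin 4 → Matrix N N ℂ) : Matrix N N ℂ := X 2 + Complex.I • X 3

/-- The projected coordinates. -/
def e : Fin 4 → Fin 3 × Fin 3 := ![(0, 1), (1, 0), (0, 2), (2, 0)]

lemma e_inj : Function.Injective e := by decide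

/-- Stacking. -/
def stack {N : Type} (F : Fin 3 → Matrix N N ℂ) : Matrix N (Fin 3 × N) ℂ :=
  Matrix.of fun u p => F p.1 u p.2

lemma stack_comp {N : Type} [Fintype N] (F : Fin 3 → Matrix N N ℂ) (Q : Matrix N N ℂ)
    (a b : Fin 3) (s t : N) :
    ((stack F)ᴴ * Q * stack F) (a, s) (b, t) = ((F a)ᴴ * Q * F b) s t := by
  simp only [Matrix.mul_apply, stack, Matrix.conjTranspose_apply, Matrix.of_apply]

/-- Extension by zero. -/
def extz {N : Type} (X : Fin 4 → Matrix N N ℂ) : Fin 3 × Fin 3 → Matrix N N ℂ := fun j =>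
  if j = (0, 1) then X 0 else if j = (1, 0) then X 1 else if j = (0, 2) then X 2
  else if j = (2, 0) then X 3 else 0

lemma P_of_mem {n : ℕ} {X : Tup (Fin 4) n} (hX : X ∈ proj e K n) :
    (∀ j, (X j).IsHermitian) ∧
      (1 - row1 X * (row1 X)ᴴ - row2 X * (row2 X)ᴴ).PosSemidef := by
  obtain ⟨Y, hY, hXY⟩ := hX
  refine ⟨fun j => by rw [hXY j]; exact hY.1 _, ?_⟩
  have hpsd := one_sub_sq hY.2.1 hY.2.2
  have h1 := hpsd.submatrix (fun s : Fin n => ((0 : Fin 3), s))
  have e00 : ent Y 0 0 = Y (0, 0) := by simp [ent]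
  have e01 : ent Y 0 1 = row1 X := by
    simp [ent, row1, hXY, e]
  have e02 : ent Y 0 2 = row2 X := by
    simp [ent, row2, hXY, e]
  have e10 : ent Y 1 0 = (row1 X)ᴴ := by
    rw [← e01]
    simp only [ent]
    rw [if_neg (by decide), if_neg (by decide), if_neg (by decide), if_pos (by decide)]
    rw [Matrix.conjTranspose_add, Matrix.conjTranspose_smul, (hY.1 _).eq, (hY.1 _).eq]
    simp [sub_eq_add_neg]
  have e20 : ent Y 2 0 = (row2 X)ᴴ := by
    rw [← e02]
    simp only [ent]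
    rw [if_neg (by decide), if_neg (by decide), if_neg (by decide), if_pos (by decide)]
    rw [Matrix.conjTranspose_add, Matrix.conjTranspose_smul, (hY.1 _).eq, (hY.1 _).eq]
    simp [sub_eq_add_neg]
  have h2 : (1 - B Y * B Y).submatrix (fun s : Fin n => ((0 : Fin 3), s))
      (fun s : Fin n => ((0 : Fin 3), s))
      = 1 - row1 X * (row1 X)ᴴ - row2 X * (row2 X)ᴴ - (Y (0, 0))ᴴ * Y (0, 0) := by
    ext s t
    simp only [Matrix.submatrix_apply, Matrix.sub_apply, Matrix.mul_apply,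
      Fintype.sum_prod_type, Fin.sum_univ_three]
    have b0 : ∀ s t, B Y (0, s) (0, t) = Y (0, 0) s t := fun s t => by
      change ent Y 0 0 s t = _; rw [e00]
    have b01 : ∀ s t, B Y (0, s) (1, t) = row1 X s t := fun s t => by
      change ent Y 0 1 s t = _; rw [e01]
    have b02 : ∀ s t, B Y (0, s) (2, t) = row2 X s t := fun s t => by
      change ent Y 0 2 s t = _; rw [e02]
    have b10 : ∀ s t, B Y (1, s) (0, t) = (row1 X)ᴴ s t := fun s t => by
      change ent Y 1 0 s t = _; rw [e10]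
    have b20 : ∀ s t, B Y (2, s) (0, t) = (row2 X)ᴴ s t := fun s t => by
      change ent Y 2 0 s t = _; rw [e20]
    simp only [b0, b01, b02, b10, b20, (hY.1 (0, 0)).eq]
    have : (1 : Matrix (Fin 3 × Fin n) (Fin 3 × Fin n) ℂ) (0, s) (0, t)
        = (1 : Matrix (Fin n) (Fin n) ℂ) s t := by
      simp [Matrix.one_apply]
    rw [this]
    ring
  rw [h2] at h1
  have h3 := h1.add (Matrix.posSemidef_conjTranspose_mul_self (Y (0, 0)))
  rwa [sub_add_cancel] at h3

lemma mem_P {n : ℕ} {X : Tup (Fin 4) n} (hX : ∀ j, (X j).IsHermitian)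
    (h : (1 - row1 X * (row1 X)ᴴ - row2 X * (row2 X)ᴴ).PosSemidef) : X ∈ proj e K n := by
  have key : ∀ c : ℂ, star c = c → c * c = 1 → (1 + c • B (extz X)).PosSemidef := by
    intro c hc hcc
    set Q := 1 - row1 X * (row1 X)ᴴ - row2 X * (row2 X)ᴴ with hQ
    set F0 : Fin 3 → Matrix (Fin n) (Fin n) ℂ := ![1, 0, 0] with hF0
    set F1 : Fin 3 → Matrix (Fin n) (Fin n) ℂ := ![c • (row1 X)ᴴ, 1, 0] with hF1
    set F2 : Fin 3 → Matrix (Fin n) (Fin n) ℂ := ![c • (row2 X)ᴴ, 0, 1] with hF2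
    have hent : ∀ a b, (1 : Matrix (Fin 3) (Fin 3) ℂ) a b • (1 : Matrix (Fin n) (Fin n) ℂ)
        + c • ent (extz X) a b = (F0 a)ᴴ * Q * F0 b + (F1 a)ᴴ * 1 * F1 b
          + (F2 a)ᴴ * 1 * F2 b := by
      have r1 : (row1 X)ᴴ = X 0 - Complex.I • X 1 := by
        simp [row1, Matrix.conjTranspose_add, Matrix.conjTranspose_smul, (hX _).eq,
          sub_eq_add_neg]
      have r2 : (row2 X)ᴴ = X 2 - Complex.I • X 3 := by
        simp [row2, Matrix.conjTranspose_add, Matrix.conjTranspose_smul, (hX _).eq,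
          sub_eq_add_neg]
      have x00 : ent (extz X) 0 0 = 0 := by simp [ent, extz]
      have x11 : ent (extz X) 1 1 = 0 := by simp [ent, extz]
      have x22 : ent (extz X) 2 2 = 0 := by simp [ent, extz]
      have x12 : ent (extz X) 1 2 = 0 := by simp [ent, extz]
      have x21 : ent (extz X) 2 1 = 0 := by simp [ent, extz]
      have x01 : ent (extz X) 0 1 = row1 X := by simp [ent, extz, row1]
      have x02 : ent (extz X) 0 2 = row2 X := by simp [ent, extz, row2]
      have x10 : ent (extz X) 1 0 = (row1 X)ᴴ := by rw [r1]; simp [ent, extz]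
      have x20 : ent (extz X) 2 0 = (row2 X)ᴴ := by rw [r2]; simp [ent, extz]
      have hstar : (starRingEnd ℂ) c = c := hc
      set_option linter.unusedSimpArgs false in
      intro a b
      fin_cases a <;> fin_cases b
      · simp [x00, F0, F1, F2, hQ, hstar, Matrix.conjTranspose_smul, smul_smul, hcc]
        abel
      · simp [x01, F0, F1, F2, hQ, hstar, Matrix.conjTranspose_smul, smul_smul, hcc]
      · simp [x02, F0, F1, F2, hQ, hstar, Matrix.conjTranspose_smul, smul_smul, hcc]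
      · simp [x10, F0, F1, F2, hQ, hstar, Matrix.conjTranspose_smul, smul_smul, hcc]
      · simp [x11, F0, F1, F2, hQ, hstar, Matrix.conjTranspose_smul, smul_smul, hcc]
      · simp [x12, F0, F1, F2, hQ, hstar, Matrix.conjTranspose_smul, smul_smul, hcc]
      · simp [x20, F0, F1, F2, hQ, hstar, Matrix.conjTranspose_smul, smul_smul, hcc]
      · simp [x21, F0, F1, F2, hQ, hstar, Matrix.conjTranspose_smul, smul_smul, hcc]
      · simp [x22, F0, F1, F2, hQ, hstar, Matrix.conjTranspose_smul, smul_smul, hcc]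
    have hfac : 1 + c • B (extz X) = (stack F0)ᴴ * Q * stack F0
        + (stack F1)ᴴ * (1 : Matrix (Fin n) (Fin n) ℂ) * stack F1
        + (stack F2)ᴴ * (1 : Matrix (Fin n) (Fin n) ℂ) * stack F2 := by
      ext ⟨a, s⟩ ⟨b, t⟩
      have h4 := congrFun (congrFun (hent a b) s) t
      rw [Matrix.add_apply ((F0 a)ᴴ * Q * F0 b + _), Matrix.add_apply ((F0 a)ᴴ * Q * F0 b),
        ← stack_comp F0, ← stack_comp F1, ← stack_comp F2] at h4
      rw [Matrix.add_apply (_ + _) ((stack F2)ᴴ * _ * _),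
        Matrix.add_apply ((stack F0)ᴴ * _ * _), ← h4]
      simp only [Matrix.add_apply, Matrix.smul_apply, B, Matrix.of_apply, Matrix.one_apply,
        Prod.mk.injEq]
      by_cases hab : a = b <;> by_cases hst : s = t <;> simp [hab, hst]
    rw [hfac]
    exact ((h.conjTranspose_mul_mul_same _).add
      (PosSemidef.one.conjTranspose_mul_mul_same _)).add
      (PosSemidef.one.conjTranspose_mul_mul_same _)
  refine ⟨extz X, ⟨fun j => ?_, ?_, ?_⟩, fun j => ?_⟩
  · unfold extz
    split_ifs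
    · exact hX _
    · exact hX _
    · exact hX _
    · exact hX _
    · exact Matrix.isHermitian_zero
  · have := key (-1) (by simp) (by ring)
    rwa [neg_one_smul, ← sub_eq_add_neg] at this
  · have := key 1 (by simp) (by ring)
    rwa [one_smul] at this
  · fin_cases j <;> simp [e, extz]

lemma exists_kernel {n : ℕ} (hn : 0 < n) (C1 C2 : Matrix (Fin n) (Fin n) ℂ) :
    ∃ u1 u2 : Matrix (Fin n) (Fin 1) ℂ, C1 * u1 + C2 * u2 = 0 ∧ u1ᴴ * u1 + u2ᴴ * u2 = 1 := by
  obtain ⟨w, hw0, hw⟩ : ∃ w : Fin n ⊕ Fin n → ℂ, w ≠ 0 ∧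
      (Matrix.fromCols C1 C2).mulVec w = 0 := by
    have := LinearMap.ker_ne_bot_of_finrank_lt (f := (Matrix.fromCols C1 C2).mulVecLin)
      (by simp; omega)
    obtain ⟨w, hw, hw0⟩ := Submodule.exists_mem_ne_zero_of_ne_bot this
    exact ⟨w, hw0, by simpa using hw⟩
  set T : ℝ := ∑ i, ‖w i‖ ^ 2 with hT
  have hTpos : 0 < T := by
    obtain ⟨i, hi⟩ := Function.ne_iff.1 hw0
    refine lt_of_lt_of_le ?_ (Finset.single_le_sum (f := fun i => ‖w i‖ ^ 2)
      (fun i _ => by positivity) (Finset.mem_univ i))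
    have : 0 < ‖w i‖ := norm_pos_iff.2 hi
    positivity
  set c : ℂ := (((Real.sqrt T)⁻¹ : ℝ) : ℂ) with hc
  refine ⟨Matrix.of fun i _ => c * w (Sum.inl i), Matrix.of fun i _ => c * w (Sum.inr i), ?_, ?_⟩
  · ext i k
    have h1 := congrFun hw i
    simp only [Matrix.mulVec, dotProduct, Fintype.sum_sum_type, Matrix.fromCols_apply_inl,
      Matrix.fromCols_apply_inr, Pi.zero_apply] at h1
    simp only [Matrix.add_apply, Matrix.mul_apply, Matrix.of_apply, Matrix.zero_apply]
    have h2 : ∀ (C : Matrix (Fin n) (Fin n) ℂ) (f : Fin n → ℂ),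
        ∑ j, C i j * (c * f j) = c * ∑ j, C i j * f j := by
      intro C f
      rw [Finset.mul_sum]
      exact Finset.sum_congr rfl fun j _ => by ring
    rw [h2 C1 (fun j => w (Sum.inl j)), h2 C2 (fun j => w (Sum.inr j)), ← mul_add, h1, mul_zero]
  · ext k l
    have hkl : k = l := Subsingleton.elim _ _
    subst hkl
    simp only [Matrix.add_apply, Matrix.mul_apply, Matrix.conjTranspose_apply, Matrix.of_apply,
      Matrix.one_apply_eq]
    have h2 : ∀ z : ℂ, star (c * z) * (c * z) = ((T⁻¹ * ‖z‖ ^ 2 : ℝ) : ℂ) := by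
      intro z
      have h3 : ‖c‖ ^ 2 = T⁻¹ := by
        rw [hc, Complex.norm_real, Real.norm_eq_abs, sq_abs, inv_pow, Real.sq_sqrt hTpos.le]
      rw [RCLike.star_def, Complex.conj_mul', norm_mul, ← h3]
      push_cast
      ring
    simp only [h2]
    rw [← Complex.ofReal_sum, ← Complex.ofReal_sum, ← Complex.ofReal_add, ← Finset.mul_sum,
      ← Finset.mul_sum, ← mul_add, ← Fintype.sum_sum_type (fun i => ‖w i‖ ^ 2), ← hT,
      inv_mul_cancel₀ hTpos.ne', Complex.ofReal_one]

lemma trace_sub_equiv {M N : Type} [Fintype M] [Fintype N] (σ : M ≃ N) (A : Matrix N N ℂ) :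
    (A.submatrix σ σ).trace = A.trace := by
  simp only [Matrix.trace, Matrix.diag_apply, Matrix.submatrix_apply]
  exact Equiv.sum_comp σ (fun i => A i i)

lemma trace_blocks {M N : Type} [Fintype M] [Fintype N] (P : Matrix M M ℂ) (Q : Matrix M N ℂ)
    (R : Matrix N M ℂ) (S : Matrix N N ℂ) :
    (Matrix.fromBlocks P Q R S).trace = P.trace + S.trace := by
  simp [Matrix.trace, Fintype.sum_sum_type]

/-- The projection has no free extreme points. -/
lemma P_noExt {n : ℕ} (hn : 0 < n) (X : Tup (Fin 4) n) : X ∉ FreeExt (proj e K) n := by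
  rintro ⟨hXP, hext⟩
  obtain ⟨hXh, hXp⟩ := P_of_mem hXP
  obtain ⟨u1, u2, hker, hnorm⟩ := exists_kernel hn (row1 X) (row2 X)
  set σ : Fin (n + 1) ≃ Fin n ⊕ Fin 1 := finSumFinEquiv.symm with hσ
  set v : Fin 4 → Matrix (Fin n) (Fin 1) ℂ :=
    ![(1 / 2 : ℂ) • u1, (Complex.I / 2) • u1, (1 / 2 : ℂ) • u2, (Complex.I / 2) • u2] with hv
  set Y0 : ∀ _ : Fin 4, Matrix (Fin n ⊕ Fin 1) (Fin n ⊕ Fin 1) ℂ :=
    fun j => Matrix.fromBlocks (X j) (v j) (v j)ᴴ 0 with hY0
  set Y : Tup (Fin 4) (n + 1) := fun j => (Y0 j).submatrix σ σ with hY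
  have hY0h : ∀ j, (Y0 j).IsHermitian := by
    intro j
    unfold Matrix.IsHermitian
    rw [hY0]
    simp only [Matrix.fromBlocks_conjTranspose, (hXh j).eq, Matrix.conjTranspose_conjTranspose,
      Matrix.conjTranspose_zero]
  have hI2 : ∀ u : Matrix (Fin n) (Fin 1) ℂ, (1 / 2 : ℂ) • u + Complex.I • ((Complex.I / 2) • u)
      = 0 := by
    intro u
    rw [smul_smul, ← add_smul, show (1 / 2 + Complex.I * (Complex.I / 2) : ℂ) = 0 by
      rw [← mul_div_assoc, Complex.I_mul_I]; norm_num, zero_smul]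
  have hI2' : ∀ u : Matrix (Fin n) (Fin 1) ℂ, ((1 / 2 : ℂ) • u)ᴴ +
      Complex.I • ((Complex.I / 2) • u)ᴴ = uᴴ := by
    intro u
    rw [Matrix.conjTranspose_smul, Matrix.conjTranspose_smul, smul_smul, ← add_smul]
    have : (star (1 / 2 : ℂ) + Complex.I * star (Complex.I / 2) : ℂ) = 1 := by
      have e2 : (starRingEnd ℂ) 2 = 2 := map_ofNat (starRingEnd ℂ) 2
      simp only [RCLike.star_def, map_div₀, map_one, e2, Complex.conj_I]
      rw [← mul_div_assoc, mul_neg, Complex.I_mul_I]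
      norm_num
    rw [this, one_smul]
  have hr1 : Y0 0 + Complex.I • Y0 1 = Matrix.fromBlocks (row1 X) 0 u1ᴴ 0 := by
    rw [hY0]
    simp only [Matrix.fromBlocks_smul, Matrix.fromBlocks_add]
    congr 1
    · simpa [hv] using hI2 u1
    · simpa [hv] using hI2' u1
    · simp
  have hr2 : Y0 2 + Complex.I • Y0 3 = Matrix.fromBlocks (row2 X) 0 u2ᴴ 0 := by
    rw [hY0]
    simp only [Matrix.fromBlocks_smul, Matrix.fromBlocks_add]
    congr 1
    · simpa [hv] using hI2 u2
    · simpa [hv] using hI2' u2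
    · simp
  have hYr1 : row1 Y = (Matrix.fromBlocks (row1 X) 0 u1ᴴ 0).submatrix σ σ := by
    rw [← hr1]; rfl
  have hYr2 : row2 Y = (Matrix.fromBlocks (row2 X) 0 u2ᴴ 0).submatrix σ σ := by
    rw [← hr2]; rfl
  set E : Matrix (Fin n) (Fin n ⊕ Fin 1) ℂ :=
    Matrix.fromCols (1 : Matrix (Fin n) (Fin n) ℂ) (0 : Matrix (Fin n) (Fin 1) ℂ) with hE
  have hYmem : Y ∈ proj e K (n + 1) := by
    refine mem_P (fun j => (hY0h j).submatrix _) ?_
    have e1 : 1 - row1 Y * (row1 Y)ᴴ - row2 Y * (row2 Y)ᴴ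
        = (Eᴴ * (1 - row1 X * (row1 X)ᴴ - row2 X * (row2 X)ᴴ) * E).submatrix σ σ := by
      rw [hYr1, hYr2, Matrix.conjTranspose_submatrix, Matrix.conjTranspose_submatrix,
        Matrix.submatrix_mul_equiv, Matrix.submatrix_mul_equiv,
        ← Matrix.submatrix_one_equiv σ]
      have e2 : (1 : Matrix (Fin n ⊕ Fin 1) (Fin n ⊕ Fin 1) ℂ)
          - Matrix.fromBlocks (row1 X) 0 u1ᴴ 0 * (Matrix.fromBlocks (row1 X) 0 u1ᴴ 0)ᴴ
          - Matrix.fromBlocks (row2 X) 0 u2ᴴ 0 * (Matrix.fromBlocks (row2 X) 0 u2ᴴ 0)ᴴ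
          = Eᴴ * (1 - row1 X * (row1 X)ᴴ - row2 X * (row2 X)ᴴ) * E := by
        have hker' : u1ᴴ * (row1 X)ᴴ + u2ᴴ * (row2 X)ᴴ = 0 := by
          have := congrArg Matrix.conjTranspose hker
          rwa [Matrix.conjTranspose_add, Matrix.conjTranspose_mul, Matrix.conjTranspose_mul,
            Matrix.conjTranspose_zero] at this
        rw [hE, Matrix.conjTranspose_fromCols_eq_fromRows_conjTranspose, Matrix.fromRows_mul,
          Matrix.fromRows_mul_fromCols, Matrix.fromBlocks_conjTranspose,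
          Matrix.fromBlocks_conjTranspose, Matrix.fromBlocks_multiply,
          Matrix.fromBlocks_multiply, ← Matrix.fromBlocks_one, sub_eq_add_neg, sub_eq_add_neg,
          Matrix.fromBlocks_neg, Matrix.fromBlocks_neg, Matrix.fromBlocks_add,
          Matrix.fromBlocks_add]
        simp only [Matrix.conjTranspose_zero, Matrix.conjTranspose_one,
          Matrix.conjTranspose_conjTranspose, Matrix.mul_zero, Matrix.zero_mul, add_zero,
          Matrix.one_mul, Matrix.mul_one, zero_add]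
        congr 1
        · rw [← neg_add, hker, neg_zero]
        · rw [← neg_add, hker', neg_zero]
        · rw [← hnorm]; abel
      rw [← e2]
      rfl
    rw [e1]
    exact (hXp.conjTranspose_mul_mul_same _).submatrix _
  set V0 : Matrix (Fin n ⊕ Fin 1) (Fin n) ℂ := Matrix.fromRows 1 0 with hV0
  set V : Matrix (Fin (n + 1)) (Fin n) ℂ := V0.submatrix σ (Equiv.refl _) with hV
  have hVh : Vᴴ = (V0ᴴ).submatrix (Equiv.refl _) σ := by
    rw [hV, Matrix.conjTranspose_submatrix]
  have hV0h : V0ᴴ = E := by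
    rw [hV0, Matrix.conjTranspose_fromRows_eq_fromCols_conjTranspose, hE]
    simp
  have hVV : Vᴴ * V = 1 := by
    rw [hVh, hV, Matrix.submatrix_mul_equiv, hV0h, hV0, hE, Matrix.fromCols_mul_fromRows]
    simp
  have hVYV : ∀ j, X j = Vᴴ * Y j * V := by
    intro j
    have e1 : V0ᴴ * Y0 j * V0 = X j := by
      rw [hV0h, hV0, hY0, hE]
      simp only [← Matrix.fromRows_fromCols_eq_fromBlocks, Matrix.fromCols_mul_fromRows,
        Matrix.one_mul, Matrix.zero_mul, add_zero]
      simp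
    rw [hVh, hV, hY]
    simp only
    rw [Matrix.submatrix_mul_equiv, Matrix.submatrix_mul_equiv, e1]
    rfl
  have hVne : V ≠ 0 := by
    intro h
    rw [h, Matrix.mul_zero] at hVV
    have := congrFun (congrFun hVV ⟨0, hn⟩) ⟨0, hn⟩
    simp at this
  have hfin := hext Unit inferInstance (fun _ => n + 1) (fun _ => Y) (fun _ => V)
    (fun _ => ⟨Nat.succ_pos n, hYmem⟩) (fun _ => hVne) (by simpa using hVV)
    (fun j => by simpa using hVYV j) ()
  rcases hfin with ⟨h, -⟩ | ⟨-, r, hr0, hr, Z, -, U, hU1, hU2, hU⟩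
  · omega
  · obtain rfl : r = 1 := by omega
    have htrY : ∀ j, (Y j).trace = (X j).trace := by
      intro j
      rw [hY]
      simp only
      rw [trace_sub_equiv, hY0]
      simp [trace_blocks]
    have hZ : ∀ j, Z j = 0 := by
      intro j
      have h1 : (Y j).trace = (X j).trace + (Z j).trace := by
        rw [hU j, Matrix.trace_mul_comm, ← Matrix.mul_assoc, hU1, Matrix.one_mul,
          trace_blocks]
      rw [htrY j] at h1
      have h2 : (Z j).trace = 0 := by
        have := h1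
        exact left_eq_add.1 this
      ext a b
      have ha : a = 0 := Subsingleton.elim _ _
      have hb : b = 0 := Subsingleton.elim _ _
      subst ha; subst hb
      simpa [Matrix.trace] using h2
    have hvz : ∀ j, v j = 0 := by
      intro j
      have h1 : (Y j * Y j).trace = (X j * X j).trace := by
        have : Y j * Y j = U * Matrix.fromBlocks (X j * X j) 0 0
            (0 : Matrix (Fin 1) (Fin 1) ℂ) * Uᴴ := by
          rw [hU j, hZ j]
          have hA : ∀ A : Matrix (Fin n ⊕ Fin 1) (Fin n ⊕ Fin 1) ℂ,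
              U * A * Uᴴ * (U * A * Uᴴ) = U * (A * (Uᴴ * U) * A) * Uᴴ := by
            intro A
            simp only [Matrix.mul_assoc]
          rw [hA, hU1, Matrix.mul_one, Matrix.fromBlocks_multiply]
          simp
        rw [this, Matrix.trace_mul_comm, ← Matrix.mul_assoc, hU1, Matrix.one_mul,
          trace_blocks, Matrix.trace_zero, add_zero]
      have h2 : (Y j * Y j).trace = (X j * X j).trace + 2 * ((v j)ᴴ * v j).trace := by
        rw [hY]
        simp only
        rw [Matrix.submatrix_mul_equiv, trace_sub_equiv, hY0]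
        simp only [Matrix.fromBlocks_multiply, trace_blocks]
        rw [Matrix.trace_add, Matrix.trace_mul_comm (v j)]
        simp
        ring
      rw [h1] at h2
      have h3 : ((v j)ᴴ * v j).trace = 0 := by
        have := left_eq_add.1 h2
        simpa using this
      exact Matrix.trace_conjTranspose_mul_self_eq_zero_iff.1 h3
    have hu1 : u1 = 0 := by
      have := hvz 0
      simpa [hv] using this
    have hu2 : u2 = 0 := by
      have := hvz 2
      simpa [hv] using this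
    rw [hu1, hu2] at hnorm
    simp only [Matrix.mul_zero, add_zero] at hnorm
    have := congrFun (congrFun hnorm 0) 0
    simp at this

lemma zero_mem_P : (fun _ => 0 : Tup (Fin 4) 1) ∈ proj e K 1 := by
  refine mem_P (fun j => Matrix.isHermitian_zero) ?_
  have : (1 - row1 (fun _ => 0 : Tup (Fin 4) 1) * (row1 (fun _ => 0 : Tup (Fin 4) 1))ᴴ
      - row2 (fun _ => 0 : Tup (Fin 4) 1) * (row2 (fun _ => 0 : Tup (Fin 4) 1))ᴴ) = 1 := by
    simp [row1, row2]
  rw [this]
  exact PosSemidef.one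

/-- Negative answer to Q2. -/
theorem result : ∃ (K : MSet (Fin 3 × Fin 3)) (e : Fin 4 → Fin 3 × Fin 3),
    Function.Injective e ∧ MatrixConvex K ∧ (∀ n, IsClosed (K n)) ∧
    (∀ n, ∃ C : ℝ, ∀ X ∈ K n, ∀ j s t, ‖X j s t‖ ≤ C) ∧
    (∀ n, 0 < n → ∀ X, X ∈ K n ↔ IsMCC (FreeExt K) n X) ∧
    (∀ n, 0 < n → FreeExt (proj e K) n = ∅) ∧
    ∃ X ∈ proj e K 1, ¬ IsMCC (FreeExt (proj e K)) 1 X := by
  refine ⟨K, e, e_inj, K_convex, K_closed, fun n => ⟨1, fun X hX j s t => K_bdd hX j s t⟩,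
    fun n hn X => K_iff hn X, fun n hn => ?_, _, zero_mem_P, ?_⟩
  · ext X
    simpa using P_noExt hn X
  · rintro ⟨ι, fι, m, Y, V, hY, hV, -⟩
    rcases isEmpty_or_nonempty ι with h | ⟨⟨i⟩⟩
    · rw [Finset.univ_eq_empty, Finset.sum_empty] at hV
      have := congrFun (congrFun hV 0) 0
      simp at this
    · exact P_noExt (hY i).1 (Y i) (hY i).2

end Pool.Agent.Results.MP_c7d282_an.ProjectionNoFreeExtreme
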